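import Mathlib
import Pool.Agent.Lib.MP_1ce311_an.CaseTwo
import Pool.Agent.Lib.MP_1ce311_an.Engines

open MeasureTheory Finset Filter
open scoped ENNReal

namespace Pool.Agent.Results.MP_1ce311_an.SharpLowerBounds

open Pool.Agent.Lib.MP_1ce311_an

/-- Normalised (Haar probability) measure on the `d`-dimensional torus `(ℝ / ℤ)^d`. -/
noncomputable def haarTorus (d : ℕ) : Measure (UnitAddTorus (Fin d)) :=
  Measure.pi fun _ => AddCircle.haarAddCircle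

/-- The `k`-th Fourier coefficient of the univariate Bernoulli kernel
`F_r(t) = 1 + 2 ∑_{k ≥ 1} k^{-r} cos (k t - r π / 2)`: it is `1` for `k = 0` and
`|k|^{-r} exp (- (π r / 2) sign(k) i)` for `k ≠ 0`. -/
noncomputable def bernoulliCoeff (r : ℝ) (k : ℤ) : ℂ :=
  if k = 0 then 1 else
    (((|(k : ℝ)| ^ (-r) : ℝ)) : ℂ) *
      Complex.exp (-((Real.pi * r / 2 * (Int.sign k : ℝ) : ℝ) : ℂ) * Complex.I)

/-- The mixed Sobolev class `W^r_p = {F_r * φ : ‖φ‖_p ≤ 1}` on the `d`-dimensional torus, as a set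
of continuous real functions: `f` is in the class when there is a real `φ ∈ L_p` of norm at most
one with `f̂(k) = F̂_r(k) φ̂(k)` for all `k ∈ ℤ^d`. -/
def mixedSobolev (d : ℕ) (r : ℝ) (p : ℝ≥0∞) : Set C(UnitAddTorus (Fin d), ℝ) :=
  {f | ∃ φ : UnitAddTorus (Fin d) → ℝ, MemLp φ p (haarTorus d) ∧
    eLpNorm φ p (haarTorus d) ≤ 1 ∧
    ∀ k : Fin d → ℤ, UnitAddTorus.mFourierCoeff (fun x => ((f x : ℝ) : ℂ)) k =
      (∏ j, bernoulliCoeff r (k j)) * UnitAddTorus.mFourierCoeff (fun x => ((φ x : ℝ) : ℂ)) k}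

/-- The optimal cubature error `κ_m(W)` with `m` nodes: infimum over all nodes and all real weights
of the worst error of the cubature formula over the class `W`. -/
noncomputable def cubatureError (d m : ℕ) (W : Set C(UnitAddTorus (Fin d), ℝ)) : ℝ≥0∞ :=
  ⨅ (ξ : Fin m → UnitAddTorus (Fin d)) (w : Fin m → ℝ),
    ⨆ f ∈ W, ENNReal.ofReal |∫ x, f x ∂(haarTorus d) - ∑ j, w j * f (ξ j)|

lemma bernoulliCoeff_eq (r : ℝ) (k : ℤ) : bernoulliCoeff r k = bern r k := by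
  unfold bernoulliCoeff bern
  split_ifs
  · rfl
  · push_cast
    rfl

/-- the error of every cubature formula is bounded below through a fooling function -/
lemma error_lower {d : ℕ} {r : ℝ} {p : ℝ} (q : ℕ) (hpq : p ≤ q) {J Λ : ℝ} (hΛ0 : 0 < Λ) (m : ℕ)
    (ξ : Fin m → UnitAddTorus (Fin d)) (w : Fin m → ℝ)
    (hf : ∃ h φ : C(UnitAddTorus (Fin d), ℝ), Rel r h φ ∧ (∀ j, h (ξ j) = 0) ∧
        J ≤ ∫ x, h x ∂(mu d) ∧ eLpNorm φ q (mu d) ≤ ENNReal.ofReal Λ) :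
    ENNReal.ofReal (J / Λ) ≤
      ⨆ f ∈ mixedSobolev d r (ENNReal.ofReal p),
        ENNReal.ofReal |∫ x, f x ∂(haarTorus d) - ∑ j, w j * f (ξ j)| := by
  obtain ⟨h, φ, hrel, hnode, hint, hnorm⟩ := hf
  have hmem : (Λ⁻¹ • h) ∈ mixedSobolev d r (ENNReal.ofReal p) := by
    refine ⟨(Λ⁻¹ • φ : C(UnitAddTorus (Fin d), ℝ)), ?_, ?_, ?_⟩
    · have : MemLp (Λ⁻¹ • φ : C(UnitAddTorus (Fin d), ℝ)) ⊤ (mu d) :=
        (Λ⁻¹ • φ : C(UnitAddTorus (Fin d), ℝ)).continuous.memLp_top_of_hasCompactSupport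
          (HasCompactSupport.of_compactSpace _) _
      exact this.mono_exponent le_top
    · have h1 : eLpNorm (Λ⁻¹ • φ : C(UnitAddTorus (Fin d), ℝ)) (ENNReal.ofReal p) (mu d) ≤
          eLpNorm (Λ⁻¹ • φ : C(UnitAddTorus (Fin d), ℝ)) q (mu d) := by
        apply eLpNorm_le_eLpNorm_of_exponent_le
        · rw [← ENNReal.ofReal_natCast]
          exact ENNReal.ofReal_le_ofReal hpq
        · exact (Λ⁻¹ • φ : C(UnitAddTorus (Fin d), ℝ)).continuous.aestronglyMeasurable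
      refine h1.trans ?_
      rw [ContinuousMap.coe_smul, eLpNorm_const_smul, Real.enorm_eq_ofReal (by positivity)]
      calc ENNReal.ofReal Λ⁻¹ * eLpNorm φ q (mu d) ≤ ENNReal.ofReal Λ⁻¹ * ENNReal.ofReal Λ := by
            gcongr
        _ = 1 := by
            rw [← ENNReal.ofReal_mul (by positivity), inv_mul_cancel₀ hΛ0.ne', ENNReal.ofReal_one]
    · intro k
      simp only [bernoulliCoeff_eq]
      exact (hrel.smul Λ⁻¹) k
  refine le_trans ?_ (le_iSup₂ (f := fun (f : C(UnitAddTorus (Fin d), ℝ))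
    (_ : f ∈ mixedSobolev d r (ENNReal.ofReal p)) =>
      ENNReal.ofReal |∫ x, f x ∂(haarTorus d) - ∑ j, w j * f (ξ j)|) (Λ⁻¹ • h) hmem)
  apply ENNReal.ofReal_le_ofReal
  have h2 : ∑ j, w j * (Λ⁻¹ • h) (ξ j) = 0 := by
    refine sum_eq_zero fun j _ => ?_
    rw [ContinuousMap.smul_apply, hnode j, smul_zero, mul_zero]
  have h3 : ∫ x, (Λ⁻¹ • h) x ∂(haarTorus d) = Λ⁻¹ * ∫ x, h x ∂(mu d) := by
    simp only [ContinuousMap.smul_apply, smul_eq_mul]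
    exact integral_const_mul _ _
  rw [h2, h3, sub_zero]
  refine le_trans ?_ (le_abs_self _)
  calc J / Λ = Λ⁻¹ * J := by rw [div_eq_inv_mul]
    _ ≤ Λ⁻¹ * ∫ x, h x ∂(mu d) := by gcongr

/-- the level used for `m` nodes -/
lemma exists_level (D m : ℕ) (hm : 1 ≤ m) : ∃ L : ℕ, 1 ≤ L ∧
    2 ^ (D + 2) * m * (L + 1) ^ D ≤ 2 ^ L ∧ 2 ^ L ≤ 2 ^ (D + 3) * m * L ^ D := by
  have hex : ∃ L : ℕ, 2 ^ (D + 2) * m * (L + 1) ^ D ≤ 2 ^ L := by
    have h1 := tendsto_pow_const_div_const_pow_of_one_lt D (r := (2:ℝ)) (by norm_num)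
    have hc : (0:ℝ) < 1 / (2 ^ (D + 3) * m) := by
      have : (0:ℝ) < m := by exact_mod_cast hm
      positivity
    have h2 := (h1.eventually (gt_mem_nhds hc)).and (eventually_ge_atTop 1)
    obtain ⟨n, hn, hn1⟩ := h2.exists
    obtain ⟨L, rfl⟩ : ∃ L, n = L + 1 := ⟨n - 1, by omega⟩
    refine ⟨L, ?_⟩
    have hm' : (0:ℝ) < m := by exact_mod_cast hm
    rw [div_lt_div_iff₀ (by positivity) (by positivity), one_mul] at hn
    have h3 : (2 ^ (D + 2) * m * (L + 1) ^ D : ℝ) ≤ 2 ^ L := by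
      have e1 : ((L + 1 : ℕ) : ℝ) ^ D * (2 ^ (D + 3) * m) = 2 * (2 ^ (D + 2) * m * (L + 1) ^ D) := by
        push_cast; ring
      have e2 : (2:ℝ) ^ (L + 1) = 2 * 2 ^ L := by ring
      rw [e1, e2] at hn
      linarith
    exact_mod_cast h3
  classical
  have hspec := Nat.find_spec hex
  set L := Nat.find hex with hL
  have hL0 : L ≠ 0 := by
    intro h0
    rw [h0] at hspec
    simp only [zero_add, one_pow, mul_one, pow_zero] at hspec
    have : 2 ≤ 2 ^ (D + 2) := by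
      calc 2 = 2 ^ 1 := rfl
        _ ≤ 2 ^ (D + 2) := Nat.pow_le_pow_right (by norm_num) (by omega)
    nlinarith
  obtain ⟨L', hL'⟩ := Nat.exists_eq_succ_of_ne_zero hL0
  have hmin := Nat.find_min hex (m := L') (by omega)
  refine ⟨L, by omega, hspec, ?_⟩
  rw [hL', Nat.succ_eq_add_one]
  push Not at hmin
  calc 2 ^ (L' + 1) = 2 * 2 ^ L' := by ring
    _ ≤ 2 * (2 ^ (D + 2) * m * (L' + 1) ^ D) := Nat.mul_le_mul_left _ hmin.le
    _ = 2 ^ (D + 3) * m * (L' + 1) ^ D := by ring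

lemma log_le_of_le_two_pow {m n : ℕ} (hm : 1 ≤ m) (h : m ≤ 2 ^ n) : Real.log m ≤ n := by
  have hm' : (0:ℝ) < m := by exact_mod_cast hm
  have h1 : Real.log m ≤ Real.log ((2:ℝ) ^ n) := by
    apply Real.log_le_log hm'
    exact_mod_cast h
  rw [Real.log_pow] at h1
  have h2 : Real.log 2 ≤ 1 := by
    have := Real.log_two_lt_d9
    linarith
  have h3 : (n:ℝ) * Real.log 2 ≤ n * 1 := by gcongr
  linarith

/-- first half -/
lemma small (E1 : Engine1) (D : ℕ) {r p : ℝ} (hp : 1 < p) (hr : 0 < r) (hr1 : r < 1) :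
    ∃ c : ℝ, 0 < c ∧ ∀ᶠ m : ℕ in atTop,
      ENNReal.ofReal (c * (m : ℝ) ^ (-r) * Real.log m ^ ((D : ℝ) * (1 - r))) ≤
        cubatureError (D + 1) m (mixedSobolev (D + 1) r (ENNReal.ofReal p)) := by
  set k := ⌈p⌉₊ with hk
  have hpk : p ≤ k := Nat.le_ceil p
  have hk1 : 1 ≤ k := by
    have : (1:ℝ) < k := lt_of_lt_of_le hp hpk
    exact_mod_cast this.le
  have hpq : p ≤ ((2 * k : ℕ) : ℝ) := by
    push_cast
    have : (0:ℝ) ≤ k := by positivity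
    linarith
  obtain ⟨K, hK, hfool⟩ := fool1 E1 hr hr1 D k hk1
  refine ⟨1 / (2 * K * ((D:ℝ) + 1) ^ D * (2 ^ (D + 3)) ^ r), by positivity, ?_⟩
  filter_upwards [eventually_ge_atTop 1] with m hm
  obtain ⟨L, hL1, hLm, hLm2⟩ := exists_level D m hm
  unfold cubatureError
  refine le_iInf₂ fun ξ w => ?_
  have hf := hfool L m ξ hLm
  refine le_trans ?_ (error_lower (2 * k) hpq (by positivity) m ξ w hf)
  apply ENNReal.ofReal_le_ofReal
  have hm0 : (0:ℝ) < m := by exact_mod_cast hm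
  have hL0 : (0:ℝ) < L := by exact_mod_cast hL1
  have hlog0 : 0 ≤ Real.log m := Real.log_natCast_nonneg m
  have hlogL : Real.log m ≤ L := by
    apply log_le_of_le_two_pow hm
    calc m ≤ 2 ^ (D + 2) * m * (L + 1) ^ D := by
          have h1 : 1 ≤ 2 ^ (D + 2) := Nat.one_le_two_pow
          have h2 : 1 ≤ (L + 1) ^ D := Nat.one_le_pow _ _ (by omega)
          calc m = 1 * m * 1 := by ring
            _ ≤ _ := by gcongr
      _ ≤ 2 ^ L := hLm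
  have h2L : ((2:ℝ) ^ L) ^ r ≤ (2 ^ (D + 3)) ^ r * (m:ℝ) ^ r * ((L:ℝ) ^ D) ^ r := by
    have h1 : (2:ℝ) ^ L ≤ 2 ^ (D + 3) * m * (L:ℝ) ^ D := by exact_mod_cast hLm2
    calc ((2:ℝ) ^ L) ^ r ≤ (2 ^ (D + 3) * m * (L:ℝ) ^ D) ^ r :=
          Real.rpow_le_rpow (by positivity) h1 hr.le
      _ = _ := by
          rw [Real.mul_rpow (by positivity) (by positivity),
            Real.mul_rpow (by positivity) (by positivity)]
  have hexp : (L:ℝ) ^ D / ((L:ℝ) ^ D) ^ r = (L:ℝ) ^ ((D:ℝ) * (1 - r)) := by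
    rw [← Real.rpow_natCast, ← Real.rpow_mul hL0.le, ← Real.rpow_sub hL0]
    congr 1
    ring
  calc 1 / (2 * K * ((D:ℝ) + 1) ^ D * (2 ^ (D + 3)) ^ r) * (m:ℝ) ^ (-r) *
        Real.log m ^ ((D:ℝ) * (1 - r))
      ≤ 1 / (2 * K * ((D:ℝ) + 1) ^ D * (2 ^ (D + 3)) ^ r) * (m:ℝ) ^ (-r) *
        (L:ℝ) ^ ((D:ℝ) * (1 - r)) := by
        gcongr
    _ = ((L:ℝ) / (D + 1)) ^ D / 2 / (K * ((2 ^ (D + 3)) ^ r * (m:ℝ) ^ r * ((L:ℝ) ^ D) ^ r)) := by
        rw [← hexp, Real.rpow_neg hm0.le, div_pow]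
        field_simp
    _ ≤ ((L:ℝ) / (D + 1)) ^ D / 2 / (K * ((2:ℝ) ^ L) ^ r) := by gcongr

/-- second half -/
lemma critical (E1 : Engine1) (E2 : Engine2) (D : ℕ) (hD : 1 ≤ D) {p : ℝ} (hp : 1 < p) :
    ∃ c : ℝ, 0 < c ∧ ∀ᶠ m : ℕ in atTop,
      ENNReal.ofReal (c * (m : ℝ) ^ (-(1 / 2) : ℝ) * Real.log m ^ ((D : ℝ) / 2) *
        √(Real.log (Real.log m))) ≤
        cubatureError (D + 1) m (mixedSobolev (D + 1) (1 / 2) (ENNReal.ofReal p)) := by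
  set k := ⌈p⌉₊ with hk
  have hpk : p ≤ k := Nat.le_ceil p
  have hk1 : 1 ≤ k := by
    have : (1:ℝ) < k := lt_of_lt_of_le hp hpk
    exact_mod_cast this.le
  have hpq : p ≤ ((2 * k : ℕ) : ℝ) := by
    push_cast
    have : (0:ℝ) ≤ k := by positivity
    linarith
  obtain ⟨K, hK, hfool⟩ := fool2 E1 E2 D k hD hk1
  refine ⟨3 / 4 / (K * ((D:ℝ) + 1) ^ D * √(2 ^ (2 * D + 5))), by positivity, ?_⟩
  filter_upwards [eventually_ge_atTop 3] with m hm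
  set n := Nat.clog 2 (2 ^ (D + 4) * m) with hn
  have hbig : 1 < 2 ^ (D + 4) * m := by
    have : 1 ≤ 2 ^ (D + 4) := Nat.one_le_two_pow
    nlinarith
  have hn1 : 2 ^ (D + 4) * m ≤ 2 ^ n := Nat.le_pow_clog (by norm_num) _
  have hn0 : n ≠ 0 := by
    intro h0
    rw [h0, pow_zero] at hn1
    omega
  have hn2 : 2 ^ n ≤ 2 ^ (D + 5) * m := by
    have h1 := Nat.pow_pred_clog_lt_self (b := 2) (by norm_num) hbig
    rw [← hn] at h1
    obtain ⟨n', hn'⟩ := Nat.exists_eq_succ_of_ne_zero hn0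
    rw [hn'] at h1 ⊢
    rw [Nat.pred_succ] at h1
    calc 2 ^ n'.succ = 2 * 2 ^ n' := by rw [Nat.succ_eq_add_one]; ring
      _ ≤ 2 * (2 ^ (D + 4) * m) := Nat.mul_le_mul_left _ h1.le
      _ = 2 ^ (D + 5) * m := by ring
  set l₀ := Nat.log 2 n with hl₀
  unfold cubatureError
  refine le_iInf₂ fun ξ w => ?_
  have hf := hfool n m ξ (by omega) hn1
  have hn0' : (0:ℝ) < n := by
    have : 0 < n := by omega
    exact_mod_cast this
  have hl0' : (0:ℝ) < ((l₀ + 1 : ℕ) : ℝ) := by positivity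
  have hmpos : (0:ℝ) < m := by
    have : 0 < m := by omega
    exact_mod_cast this
  have hΛ : 0 < K * √(2 ^ n * (n + l₀ + 1) ^ D * (l₀ + 1 : ℕ)) := by positivity
  refine le_trans ?_ (error_lower (2 * k) hpq hΛ m ξ w hf)
  apply ENNReal.ofReal_le_ofReal
  have hmn : m ≤ 2 ^ n := by
    refine le_trans ?_ hn1
    have : 1 ≤ 2 ^ (D + 4) := Nat.one_le_two_pow
    nlinarith
  have hlogm : Real.log m ≤ n := log_le_of_le_two_pow (by omega) hmn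
  have hlogm1 : 0 < Real.log m := Real.log_pos (by
    have : (3:ℝ) ≤ m := by exact_mod_cast hm
    linarith)
  have hloglog : Real.log (Real.log m) ≤ ((l₀ + 1 : ℕ) : ℝ) := by
    calc Real.log (Real.log m) ≤ Real.log n := Real.log_le_log hlogm1 hlogm
      _ ≤ ((l₀ + 1 : ℕ) : ℝ) := by
          apply log_le_of_le_two_pow (by omega)
          exact (Nat.lt_pow_succ_log_self (by norm_num) n).le
  have hl₀n : l₀ + 1 ≤ n := Nat.log_lt_self 2 hn0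
  have hsqrt : √(2 ^ n * ((n:ℝ) + l₀ + 1) ^ D * (l₀ + 1 : ℕ)) ≤
      √(2 ^ (2 * D + 5)) * √m * √((n:ℝ) ^ D) * √((l₀ + 1 : ℕ) : ℝ) := by
    rw [← Real.sqrt_mul (by positivity), ← Real.sqrt_mul (by positivity),
      ← Real.sqrt_mul (by positivity)]
    apply Real.sqrt_le_sqrt
    have h1 : (2:ℝ) ^ n ≤ 2 ^ (D + 5) * m := by exact_mod_cast hn2
    have h2 : (n:ℝ) + l₀ + 1 ≤ 2 * n := by
      have : ((l₀ + 1 : ℕ) : ℝ) ≤ n := by exact_mod_cast hl₀n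
      push_cast at this
      linarith
    calc 2 ^ n * ((n:ℝ) + l₀ + 1) ^ D * (l₀ + 1 : ℕ)
        ≤ (2 ^ (D + 5) * m) * (2 * (n:ℝ)) ^ D * (l₀ + 1 : ℕ) := by gcongr
      _ = 2 ^ (2 * D + 5) * m * (n:ℝ) ^ D * (l₀ + 1 : ℕ) := by
          rw [mul_pow]; ring
  have hsn : √((n:ℝ) ^ D) * (n:ℝ) ^ ((D:ℝ) / 2) = (n:ℝ) ^ D := by
    have h1 : √((n:ℝ) ^ D) = (n:ℝ) ^ ((D:ℝ) / 2) := by
      rw [Real.sqrt_eq_rpow, ← Real.rpow_natCast, ← Real.rpow_mul hn0'.le]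
      congr 1
      ring
    rw [h1, ← Real.rpow_add hn0', ← Real.rpow_natCast]
    congr 1
    ring
  have hsl : √((l₀ + 1 : ℕ) : ℝ) * √((l₀ + 1 : ℕ) : ℝ) = ((l₀ + 1 : ℕ) : ℝ) :=
    Real.mul_self_sqrt hl0'.le
  have hml : (m:ℝ) ^ (-(1 / 2) : ℝ) = 1 / √m := by
    rw [Real.rpow_neg hmpos.le, Real.sqrt_eq_rpow]
    exact (one_div _).symm
  have hsl0 : 0 < √((l₀ + 1 : ℕ) : ℝ) := Real.sqrt_pos.2 hl0'
  have hsm0 : 0 < √(m:ℝ) := Real.sqrt_pos.2 hmpos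
  have hsnD0 : 0 < √((n:ℝ) ^ D) := Real.sqrt_pos.2 (by positivity)
  calc 3 / 4 / (K * ((D:ℝ) + 1) ^ D * √(2 ^ (2 * D + 5))) * (m:ℝ) ^ (-(1 / 2) : ℝ) *
        Real.log m ^ ((D:ℝ) / 2) * √(Real.log (Real.log m))
      ≤ 3 / 4 / (K * ((D:ℝ) + 1) ^ D * √(2 ^ (2 * D + 5))) * (m:ℝ) ^ (-(1 / 2) : ℝ) *
        (n:ℝ) ^ ((D:ℝ) / 2) * √((l₀ + 1 : ℕ) : ℝ) := by
        gcongr
    _ = 3 / 4 * ((l₀ + 1 : ℕ) * ((n:ℝ) / (D + 1)) ^ D) /
        (K * (√(2 ^ (2 * D + 5)) * √m * √((n:ℝ) ^ D) * √((l₀ + 1 : ℕ) : ℝ))) := by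
        rw [hml, div_pow]
        nth_rewrite 1 [← hsn]
        nth_rewrite 2 [← hsl]
        field_simp
    _ ≤ 3 / 4 * ((l₀ + 1 : ℕ) * ((n:ℝ) / (D + 1)) ^ D) /
        (K * √(2 ^ n * ((n:ℝ) + l₀ + 1) ^ D * (l₀ + 1 : ℕ))) := by
        gcongr

/-- **Main theorem.** The conjectured lower bounds for the optimal cubature error of the mixed
Sobolev classes of small smoothness, in every dimension `d ≥ 2` and for all `2 < p < ∞`. -/
theorem result (d : ℕ) (hd : 2 ≤ d) (p : ℝ) (hp : 2 < p) :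
    (∀ r : ℝ, 1 / p < r → r < 1 / 2 → ∃ c : ℝ, 0 < c ∧ ∀ᶠ m : ℕ in atTop,
      ENNReal.ofReal (c * (m : ℝ) ^ (-r) * Real.log m ^ (((d : ℝ) - 1) * (1 - r))) ≤
        cubatureError d m (mixedSobolev d r (ENNReal.ofReal p))) ∧
    (∃ c : ℝ, 0 < c ∧ ∀ᶠ m : ℕ in atTop,
      ENNReal.ofReal (c * (m : ℝ) ^ (-(1 / 2) : ℝ) * Real.log m ^ (((d : ℝ) - 1) / 2) *
        √(Real.log (Real.log m))) ≤
        cubatureError d m (mixedSobolev d (1 / 2) (ENNReal.ofReal p))) := by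
  obtain ⟨D, rfl⟩ : ∃ D, d = D + 1 := ⟨d - 1, by omega⟩
  have e : ((D + 1 : ℕ) : ℝ) - 1 = D := by push_cast; ring
  rw [e]
  refine ⟨fun r hr hr2 => ?_, ?_⟩
  · have hr0 : 0 < r := lt_trans (by positivity) hr
    exact small engine1 D (by linarith) hr0 (by linarith)
  · exact critical engine1 engine2 D (by omega) (by linarith)

end Pool.Agent.Results.MP_1ce311_an.SharpLowerBounds
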